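import Pool.Agent.Helper69.BQ.St.B2

set_option autoImplicit false

/-!
# Project BQ, piece C1: the norm of an element whose ideal is a square
-/

namespace Pool.Agent.Helper43.BQ

open Module NumberField Pool.Agent.Helper25.Biq
open Pool.Agent.Helper69.BQ

variable {K : Type} [Field K] [NumberField K] [IsGalois ℚ K] {g12 g13 g23 : ℤ}

/-- C1. The norm to `ℚ` is a positive square. -/
lemma norm_pos (D : Dat K g12 g13 g23) (hA : Arith g12 g13 g23) {a : 𝓞 K} {I : Ideal (𝓞 K)}
    (ha : a ≠ 0) (hI : I ^ 2 = Ideal.span {a}) : ∃ n : ℚ, n ≠ 0 ∧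
      algebraMap (𝓞 K) K a * D.σ (algebraMap (𝓞 K) K a) *
        D.τ (algebraMap (𝓞 K) K a * D.σ (algebraMap (𝓞 K) K a)) = algebraMap ℚ K (n ^ 2) := by
  have h := D.v4
  set σ := D.σ with hσdef
  set τ := D.τ with hτdef
  set ρ := D.ρ with hρdef
  set A : K := algebraMap (𝓞 K) K a with hAdef
  have hA0 : A ≠ 0 := alg_ne_zero ha
  have hσA : σ A ≠ 0 := (map_ne_zero_iff _ σ.injective).2 hA0
  have hτA : τ A ≠ 0 := (map_ne_zero_iff _ τ.injective).2 hA0
  have hρA : ρ A ≠ 0 := (map_ne_zero_iff _ ρ.injective).2 hA0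
  have hprod : A * σ A * τ (A * σ A) = A * σ A * τ A * ρ A := by
    rw [map_mul, h.hts]; ring
  -- the product is an integer
  obtain ⟨q, hq⟩ := exists_rat h (x := A * σ A * τ A * ρ A)
    (by rw [map_mul, map_mul, map_mul, h.hss, h.hst, h.hsr]; ring)
    (by rw [map_mul, map_mul, map_mul, h.hts, h.swap.hss, h.swap.hsr]; ring)
  have h1 : algebraMap (𝓞 K) K (a * oAut σ a * oAut τ a * oAut ρ a) = algebraMap ℚ K q := by
    rw [hq, map_mul, map_mul, map_mul, algebraMap_oAut, algebraMap_oAut, algebraMap_oAut]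
  obtain ⟨m, hm⟩ := exists_int_of_rat h1
  have h2 : a * oAut σ a * oAut τ a * oAut ρ a = (m : 𝓞 K) := by
    apply RingOfIntegers.coe_injective
    rw [h1, hm, map_intCast, map_intCast]
  have hn1 : Ideal.absNorm (Ideal.span {a}) = Ideal.absNorm I ^ 2 := by
    rw [← hI, map_pow]
  have hn2 : ∀ g : K ≃ₐ[ℚ] K, Ideal.absNorm (Ideal.span {oAut g a}) =
      Ideal.absNorm (Ideal.span {a}) := by
    intro g
    rw [Ideal.absNorm_span_singleton, Ideal.absNorm_span_singleton]
    congr 1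
    exact Algebra.norm_eq_of_algEquiv (oAut g).toIntAlgEquiv a
  have hn3 : Ideal.absNorm (Ideal.span {(m : 𝓞 K)}) = m.natAbs ^ 4 := by
    have h4 : Ideal.span {(m : 𝓞 K)} = Ideal.span {((m.natAbs : ℕ) : 𝓞 K)} := by
      rcases Int.natAbs_eq m with h5 | h5
      · conv_lhs => rw [h5]
        rw [Int.cast_natCast]
      · conv_lhs => rw [h5]
        rw [Int.cast_neg, Int.cast_natCast, Ideal.span_singleton_neg]
    rw [h4, Ideal.absNorm_span_natCast, RingOfIntegers.rank, finrank_four h]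
  have h5 : m.natAbs ^ 4 = (Ideal.absNorm I ^ 2) ^ 4 := by
    rw [← hn3, ← h2, ← Ideal.span_singleton_mul_span_singleton,
      ← Ideal.span_singleton_mul_span_singleton, ← Ideal.span_singleton_mul_span_singleton,
      map_mul, map_mul, map_mul, hn2, hn2, hn2, hn1]
    ring
  have h6 : m.natAbs = Ideal.absNorm I ^ 2 :=
    Nat.pow_left_injective (n := 4) (by norm_num) h5
  have h7 : A * σ A * τ A * ρ A = (m : K) := by
    rw [← hq, hm, map_intCast]
  have hm0 : m ≠ 0 := by
    rintro rfl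
    exact mul_ne_zero (mul_ne_zero (mul_ne_zero hA0 hσA) hτA) hρA (by rw [h7]; simp)
  set N : ℕ := Ideal.absNorm I with hN
  have hN0 : (N : ℚ) ≠ 0 := by
    intro h0
    have h8 : N = 0 := by exact_mod_cast h0
    rw [h8] at h6
    exact hm0 (by simpa using h6)
  rcases Int.natAbs_eq m with h8 | h8
  · refine ⟨(N : ℚ), hN0, ?_⟩
    rw [hprod, h7, h8, h6, map_pow, map_natCast]
    simp
  · exfalso
    obtain ⟨g, hg1, hg2⟩ := norm_isNm D hA (β := A * σ A) (by
      show σ (A * σ A) = A * σ A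
      rw [map_mul, h.hss, mul_comm])
    have hg3 : g = -(N : ℚ) ^ 2 := by
      apply (algebraMap ℚ K).injective
      rw [← hg1]
      show A * σ A * τ (A * σ A) = _
      rw [hprod, h7, h8, h6, map_neg, map_pow, map_natCast]
      simp
    obtain ⟨q', hq', hq4, hqd⟩ := hA.n1
    have hq2 : ¬ (q' : ℤ) ^ 2 ∣ g12 * g13 := by
      intro hd
      have h9 : (q' : ℤ) * q' ∣ g12 * g13 * g23 := by
        rw [← pow_two]; exact hd.mul_right _
      have h10 := hA.sqf _ h9
      have h11 : (q' : ℤ).natAbs = 1 := Int.isUnit_iff_natAbs_eq.1 h10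
      rw [Int.natAbs_natCast] at h11
      exact hq'.one_lt.ne' h11
    rw [hg3] at hg2
    exact neg_sq_not_nm hq' hq4 hqd hq2 hN0 hg2

end Pool.Agent.Helper43.BQ
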